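import Pool.Agent.J6H91.TZ.Main

/-!
# MP_f1c2ec_an: classification when the torus zero set is a finite union of cosets

Definitions (`Pool/Agent/J6H91/Cyc/Defs.lean`, `Dominated.lean`, `Cone.lean`): `ShiftCyclic t P` (the
multiples of `P` by polynomials are dense in `D_t(𝔻^d)`); `ZeroFree P` (no zero in `𝔻^d`);
`rankIn M J`: the dimension of the rational span of the elements of `M ⊆ ℕ^d` supported in `J`.
For a subgroup `L` of `ℤ^d` and `a ∈ 𝕋^d` the set `{z ∈ 𝕋^d : (z / a)^l = 1 for all l ∈ L}` is the coset
`a H` of the closed subgroup `H` of the torus orthogonal to `L` (all closed subgroups are of this form).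

Theorem. (1) If `P` is shift-cyclic in `D_t(𝔻^d)`, then `P` is zero-free in `𝔻^d`, and for every coset
`a H` on which `P` vanishes there is a nonempty set `J` of variables with
`t |J| ≤ rank {k ∈ ℕ^d ∩ L : supp k ⊆ J}`. (2) If `P` is zero-free in `𝔻^d` and its zeros on the torus
lie in finitely many cosets with this property, then `P` is shift-cyclic in `D_t(𝔻^d)`. So if the zero
set on the torus is a finite union of cosets of closed subgroups, `P` is shift-cyclic if and only if
it is zero-free and all these cosets have this property.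

Proof. (1) The Haar measure of the coset is a functional which kills the multiples of `P`; its energy
is a sum over `ℕ^d ∩ L`, whose convergence is decided by the ranks. (2) Comparison
(`TorusComparison`) with a product of polynomials with dominant constant term.
-/

set_option autoImplicit false

namespace Pool.Agent.Results.MP_f1c2ec_an.CosetZeroSets

open Pool.Agent.J6H91.Cyc

/-- (1) necessary conditions from the cosets on which `P` vanishes; (2) they are sufficient if the
zeros on the torus lie in finitely many such cosets. -/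
theorem result (d : ℕ) (t : ℝ) (P : MvPolynomial (Fin d) ℂ) :
    (ShiftCyclic t P → ZeroFree P ∧ ∀ (L : AddSubgroup (Fin d → ℤ)) (a : Fin d → ℂ),
      (∀ j, ‖a j‖ = 1) →
      (∀ z : Fin d → ℂ, (∀ j, ‖z j‖ = 1) → (∀ l ∈ L, ∏ j, (z j / a j) ^ l j = 1) →
        MvPolynomial.eval z P = 0) →
        ∃ J : Finset (Fin d), J.Nonempty ∧
          t * J.card ≤ rankIn {k | Pool.Agent.J6H91.Cyc.toZ k ∈ L} J) ∧
    (ZeroFree P → ∀ (n : ℕ) (L : Fin n → AddSubgroup (Fin d → ℤ)) (a : Fin n → Fin d → ℂ),
      (∀ i j, ‖a i j‖ = 1) →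
      (∀ i, ∃ J : Finset (Fin d), J.Nonempty ∧
        t * J.card ≤ rankIn {k | Pool.Agent.J6H91.Cyc.toZ k ∈ L i} J) →
      (∀ z : Fin d → ℂ, (∀ j, ‖z j‖ = 1) → MvPolynomial.eval z P = 0 →
        ∃ i, ∀ l ∈ L i, ∏ j, (z j / a i j) ^ l j = 1) → ShiftCyclic t P) :=
  ⟨fun h => ⟨(Pool.Agent.J6H91.TZ.cosets_necessary h).1, fun L a ha hz =>
      (Pool.Agent.J6H91.TZ.cosets_necessary h).2 L a ha fun z hzc => hz z hzc.1 hzc.2⟩,
    fun hP _ L a ha hL hz => Pool.Agent.J6H91.TZ.cosets_sufficient hP L a ha hL fun z hz1 h0 =>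
      (hz z hz1 h0).imp fun _ h => ⟨hz1, h⟩⟩

end Pool.Agent.Results.MP_f1c2ec_an.CosetZeroSets
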