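import Pool.Agent.J6H91.TZ.Final

/-!
# MP_f1c2ec_an: the shift-cyclic polynomials of `D_t(𝔻^d)` for `1 - 1/d < t ≤ 1`

Definitions (`Pool/Agent/J6H91/Cyc/Defs.lean`): `weight t k = ∏_j (k_j + 1)^t`,
`normSq t c = Σ_k weight t k |c_k|²`, `MemD t c` (finite norm), `ShiftCyclic t P` (the multiples of
`P` by polynomials are dense in `D_t`), `ZeroFree P` (no zero in the open polydisc).

Theorem. Let `d ≥ 2`. If `1 - 1/d < t ≤ 1`, in particular for the Dirichlet space (`t = 1`), a polynomial
is shift-cyclic in `D_t(𝔻^d)` if and only if it has no zero in `𝔻^d` and its zeros on the torus `𝕋^d`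
lie in finitely many sets `{z_j = c}`. For all other `t` this equivalence fails for some polynomial.

Proof. (Sufficiency) The comparison theorem (`TorusComparison`) with a product of polynomials
`z_j - c`, `|c| = 1`. (Necessity) The real parts of the zeros on the torus form a semialgebraic set. If it
is not contained in finitely many coordinate hyperplanes, one finds a selection `x(s)` of points of it
over an interval, such that all its coordinates satisfy polynomial equations `k_j(s, x_j(s)) = 0` and,
on a set of parameters `s` of positive outer measure, `∂k_j/∂s` is bounded away from `0`. Discrete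
measures on these points have bounded energies, since `(1 - t) d < 1`, and kill the multiples of `P`.
(Sharpness) `(d - 1) - z_1 (z_2 + ⋯ + z_d)` is shift-cyclic for `t ≤ 1 - 1/d`, and `1 - z_1` is not for
`t > 1`.
-/

set_option autoImplicit false

namespace Pool.Agent.Results.MP_f1c2ec_an.DirichletRange

open Pool.Agent.J6H91.Cyc

/-- For `d ≥ 2` and a real number `t`: `1 - 1/d < t ≤ 1` if and only if for all polynomials `P` in `d`
variables, `P` is shift-cyclic in `D_t(𝔻^d)` exactly when `P` has no zero in `𝔻^d` and all its zeros on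
the torus lie in finitely many sets `{z_j = c}`. -/
theorem result (d : ℕ) (hd : 2 ≤ d) (t : ℝ) :
    (1 - 1 / (d : ℝ) < t ∧ t ≤ 1) ↔ ∀ P : MvPolynomial (Fin d) ℂ,
      (ShiftCyclic t P ↔ ZeroFree P ∧ ∃ F : Fin d → Set ℂ, (∀ j, (F j).Finite) ∧
        ∀ z : Fin d → ℂ, (∀ j, ‖z j‖ = 1) → MvPolynomial.eval z P = 0 → ∃ j, z j ∈ F j) :=
  Pool.Agent.J6H91.TZ.main_range d hd t

end Pool.Agent.Results.MP_f1c2ec_an.DirichletRange
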