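import Pool.Agent.J6H91.TZ.Pat.Patch

/-!
# MP_f1c2ec_an: a necessary condition from smooth pieces of the zero set on the torus

Definition (`Pool/Agent/J6H91/Cyc/Defs.lean`): `ShiftCyclic t P`: the multiples of `P` by polynomials are
dense in `D_t(𝔻^d)`, `‖f‖_t² = Σ_k ∏_j (k_j + 1)^t |c_k|²`.

Theorem. Let `P` be shift-cyclic in `D_t(𝔻^d)` and let `φ : U → ℝ^d`, `U ⊆ ℝ^m` open, be a `C¹` map such that
`P` vanishes at all points `(e^{iφ_1(u)}, …, e^{iφ_d(u)})`. Then for every `u₀ ∈ U` there is a nonempty set
`J` of variables such that the differentials `dφ_j(u₀)`, `j ∈ J`, span a space of dimension at most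
`(1 - t) |J|`.

So if `P` vanishes on an `m`-dimensional piece of the torus in general position (every `m` of the `d`
angles are local coordinates), then `t ≤ 1 - m/d`. For cosets of closed subgroups compare
`CosetZeroSets`, which shows that the bound is attained.

Proof. If `(1 - t) |J| < rank J` for all `J`, then Lebesgue measure on a small ball around `u₀` defines a
measure on the zeros with finite energy: with `Δ_j = |φ_j(u) - φ_j(v)|` the product of all
`Δ_j^{-(1-t)}` is bounded by the sum over the linearly independent sets `I` of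
`∏_{j ∈ I} Δ_j^{-s}` with some `s < 1` (a greedy choice of `I`), and these functions are integrable, since
the `φ_j`, `j ∈ I`, are part of a system of local coordinates.
-/

set_option autoImplicit false

namespace Pool.Agent.Results.MP_f1c2ec_an.SmoothPieces

open Pool.Agent.J6H91.Cyc

/-- Let `P` be shift-cyclic in `D_t(𝔻^d)`, and let the `C¹` map `u ↦ (e^{iφ_j(u)})_j` on the open set
`U ⊆ ℝ^m` have all its values in the zero set of `P`. At every point `u₀` of `U` there is a nonempty set `J`
of variables such that the rank of the differentials of the `φ_j`, `j ∈ J`, is at most `(1 - t) |J|`. -/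
theorem result (d m : ℕ) (t : ℝ) (P : MvPolynomial (Fin d) ℂ) (hP : ShiftCyclic t P)
    (U : Set (Fin m → ℝ)) (hU : IsOpen U) (φ : (Fin m → ℝ) → (Fin d → ℝ))
    (hφ : ContDiffOn ℝ 1 φ U)
    (hz : ∀ u ∈ U, MvPolynomial.eval (fun j => Complex.exp (φ u j * Complex.I)) P = 0)
    (u₀ : Fin m → ℝ) (hu₀ : u₀ ∈ U) :
    ∃ J : Finset (Fin d), J.Nonempty ∧
      (Module.finrank ℝ (Submodule.span ℝ
        ((fun j => fderiv ℝ (fun u => φ u j) u₀) '' (J : Set (Fin d)))) : ℝ) ≤ (1 - t) * J.card :=
  Pool.Agent.J6H91.TZ.patch_condition hP hU hφ hz hu₀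

end Pool.Agent.Results.MP_f1c2ec_an.SmoothPieces
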