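import Pool.Agent.J6H91.TZ.Main

/-!
# MP_f1c2ec_an: shift-cyclicity is determined by the zero set on the torus

Definitions (`Pool/Agent/J6H91/Cyc/Defs.lean`): `weight t k = ∏_j (k_j + 1)^t`,
`normSq t c = Σ_k weight t k |c_k|²`, `MemD t c` (finite norm), `ShiftCyclic t P` (the multiples of
`P` by polynomials are dense in `D_t`), `ZeroFree P` (no zero in the open polydisc).

Theorem. Let `P` have no zero in `𝔻^d`, and let all the zeros of `P` on the torus `𝕋^d` be zeros of `Q`.
If `Q` is shift-cyclic in `D_t(𝔻^d)`, then so is `P`. Here `d` and the real number `t` are arbitrary.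
So for zero-free polynomials the shift-cyclicity in `D_t(𝔻^d)` depends only on the zero set on the
torus, and monotonically.

Proof. By the inequality of Lojasiewicz (from the elimination of quantifiers over the real numbers)
`|Q(z)|^N ≤ C |P(r z)|` for `z ∈ 𝕋^d` and `0 ≤ r ≤ 1`. So for large `M` all the mixed derivatives of
`Q(z)^M P(z) / P(r z)` up to a given order in each variable are bounded on the torus, uniformly in
`r < 1`: these functions are bounded in `D_t`, they are limits of multiples of `P`, and tend to `Q^M`
weakly. Hence `Q^M` is in the closure of the multiples of `P`.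
-/

set_option autoImplicit false

namespace Pool.Agent.Results.MP_f1c2ec_an.TorusComparison

open Pool.Agent.J6H91.Cyc

/-- If `P` is zero-free in `𝔻^d` and vanishes on the torus only where `Q` vanishes, and `Q` is
shift-cyclic in `D_t(𝔻^d)`, then `P` is shift-cyclic in `D_t(𝔻^d)`. -/
theorem result (d : ℕ) (t : ℝ) (P Q : MvPolynomial (Fin d) ℂ) (hP : ZeroFree P)
    (h : ∀ z : Fin d → ℂ, (∀ j, ‖z j‖ = 1) → MvPolynomial.eval z P = 0 →
      MvPolynomial.eval z Q = 0) (hQ : ShiftCyclic t Q) : ShiftCyclic t P :=
  Pool.Agent.J6H91.TZ.comparison' hP h hQ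

end Pool.Agent.Results.MP_f1c2ec_an.TorusComparison
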